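import Mathlib
import Pool.Agent.TH954.SEt2

/-!
# Birational sections over fields of rational functions: statements of the parts (project FG)

`k = K(t_1, …, t_n)`, `s` is a section of `Gal(Ω/F) → G_k`, `F` a function field over `k` with a
subfield `F₀` which is a function field over `K`.
-/

set_option autoImplicit false
set_option linter.all false

namespace Pool.Agent.Zk12.FG

open Pool.Agent.TH954

/-- `k` is the field of rational functions in the `t i` over `K` -/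
def RatFn (K : Type) {k : Type} [Field K] [Field k] [Algebra K k] {n : ℕ} (t : Fin n → k) : Prop :=
  AlgebraicIndependent K t ∧ IntermediateField.adjoin K (Set.range t) = ⊤

/-- **part A1**: the decomposition group of a place `t = a` of `k₀(t)` contains a copy of `G_{k₀}`, and
the classes of the functions `P`, `P(a) ≠ 0`, go to the classes of `P(a)` -/
def S_SPLIT1 : Prop := ∀ (k₀ k B₀ B : Type) [Field k₀] [CharZero k₀] [Field k] [Field B₀] [Field B]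
  [Algebra k₀ k] [Algebra k₀ B₀] [Algebra k B] [Algebra k₀ B] [IsScalarTower k₀ k B]
  [IsAlgClosure k₀ B₀] [IsAlgClosure k B] (j : B₀ →ₐ[k₀] B) (t : k), Transcendental k₀ t →
  IntermediateField.adjoin k₀ {t} = ⊤ → ∀ a : k₀,
  ∃ σ : (B₀ ≃ₐ[k₀] B₀) →* (B ≃ₐ[k] B), Continuous σ ∧ (∀ g z, σ g (j z) = j (g z)) ∧
    ∀ (P : Polynomial k₀) (m : ℕ) (γ : B), P.eval a ≠ 0 → 0 < m →
      γ ^ m = algebraMap k B (Polynomial.aeval t P) →
      ∃ r : B₀, r ^ m = algebraMap k₀ B₀ (P.eval a) ∧ ∀ g, σ g (γ / j r) = γ / j r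

/-- **part A2**: several variables -/
def S_SPLITN : Prop := ∀ (n : ℕ) (K k B₀ B : Type) [Field K] [CharZero K] [Field k] [Field B₀]
  [Field B] [Algebra K k] [Algebra K B₀] [Algebra k B] [Algebra K B] [IsScalarTower K k B]
  [IsAlgClosure K B₀] [IsAlgClosure k B] (j : B₀ →ₐ[K] B) (t : Fin n → k), RatFn K t →
  ∀ a : Fin n → K,
  ∃ σ : (B₀ ≃ₐ[K] B₀) →* (B ≃ₐ[k] B), Continuous σ ∧ (∀ g z, σ g (j z) = j (g z)) ∧
    ∀ (P : MvPolynomial (Fin n) K) (m : ℕ) (γ : B), MvPolynomial.eval a P ≠ 0 → 0 < m →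
      γ ^ m = algebraMap k B (MvPolynomial.aeval t P) →
      ∃ r : B₀, r ^ m = algebraMap K B₀ (MvPolynomial.eval a P) ∧ ∀ g, σ g (γ / j r) = γ / j r

/-- **part R (restriction)**: the section of the small field -/
def S_RES : Prop := ∀ (K k F₀ F Ω₀ Ω B₀ B : Type) [Field K] [CharZero K] [Field k] [Field F₀]
  [Field F] [Field Ω₀] [Field Ω] [Field B₀] [Field B] [Algebra K k] [Algebra K F₀] [Algebra K B₀]
  [Algebra K B] [Algebra K Ω₀] [Algebra k F] [Algebra k B] [Algebra k Ω] [Algebra F Ω]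
  [Algebra F₀ Ω₀] [IsScalarTower K k B] [IsScalarTower K F₀ Ω₀] [IsScalarTower k F Ω]
  [IsAlgClosure F Ω] [IsAlgClosure k B] [IsAlgClosure F₀ Ω₀] [IsAlgClosure K B₀]
  (s : GalSection k F Ω B) (j : B₀ →ₐ[K] B) (σ : (B₀ ≃ₐ[K] B₀) →* (B ≃ₐ[k] B)), Continuous σ →
  (∀ g z, σ g (j z) = j (g z)) → ∀ (i₀ : F₀ →+* F) (e : Ω₀ →+* Ω),
  (∀ z, e (algebraMap F₀ Ω₀ z) = algebraMap F Ω (i₀ z)) →
  (∀ c : K, i₀ (algebraMap K F₀ c) = algebraMap k F (algebraMap K k c)) →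
  ∃ s₀ : GalSection K F₀ Ω₀ B₀, (∀ z, e (s₀.j z) = s.j (j z)) ∧
    ∀ g z, e (s₀.s g z) = s.s (σ g) (e z)

/-- **part C (classes)**: the class of a function along a section which arises from a rational point is
the class of its value -/
def S_CLS : Prop := ∀ (K F Ω B : Type) [Field K] [CharZero K] [Field F] [Field Ω] [Field B]
  [Algebra K F] [Algebra F Ω] [Algebra K Ω] [Algebra K B] [IsScalarTower K F Ω] [IsAlgClosure F Ω]
  [IsAlgClosure K B] (s : GalSection K F Ω B) (O : ValuationSubring F), s.ArisesFrom O →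
  ∀ (f : F) (q c : K) (w : Ω) (m : ℕ), q ≠ 0 → c ≠ 0 → 0 < m →
    O.valuation (f - algebraMap K F q) < 1 → (∀ g, s.s g w = w) →
    algebraMap F Ω f = algebraMap K Ω c * w ^ m → ∃ r : K, q = c * r ^ m

/-- **part N1 (approximation)**: `P(τ)` is `P(a)` up to `m`-th powers for some rational `a` -/
def S_APPROX : Prop := ∀ (n p : ℕ) [Fact p.Prime] (τ : Fin n → ℚ_[p]) (P : MvPolynomial (Fin n) ℚ),
  MvPolynomial.aeval τ P ≠ 0 → ∀ m : ℕ, 0 < m → ∃ (a : Fin n → ℚ) (z : ℚ_[p]),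
    MvPolynomial.eval a P ≠ 0 ∧ z ≠ 0 ∧
    MvPolynomial.aeval τ P = algebraMap ℚ ℚ_[p] (MvPolynomial.eval a P) * z ^ m

/-- **part N2**: infinitely divisible elements -/
def S_POW : Prop := ∀ (p : ℕ) [Fact p.Prime] (u : ℚ_[p]), u ≠ 0 →
  (∀ m : ℕ, 0 < m → ∃ z : ℚ_[p], u = z ^ m) → u = 1

/-- **part K (Koenigsmann)**: the sections are given by places over `ℚ_p` -/
def S_KOEP : Prop := ∀ (p : ℕ) [Fact p.Prime] (k F Ω B C : Type) [Field k] [Field F] [Field Ω] [Field B]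
  [Field C] [Algebra k ℚ_[p]] [Algebra ℚ_[p] C] [Algebra k C] [IsScalarTower k ℚ_[p] C]
  [IsAlgClosure ℚ_[p] C] [Algebra k F] [Algebra F Ω] [Algebra k Ω]
  [Algebra k B] [IsScalarTower k F Ω] [IsAlgClosure F Ω] [IsAlgClosure k B]
  (s : GalSection k F Ω B), ∃ pl : Plc k Ω C, s.GivenBy ℚ_[p] pl

/-- all sections of the function field `F₀` over `K` arise from points with `x ∈ E` -/
def AllGeo (K F₀ : Type) [Field K] [Field F₀] [Algebra K F₀] (x : F₀) (E : Finset K) : Prop :=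
  ∀ (Ω₀ B₀ : Type) [Field Ω₀] [Field B₀] [Algebra F₀ Ω₀] [Algebra K Ω₀] [Algebra K B₀]
    [IsScalarTower K F₀ Ω₀] [IsAlgClosure F₀ Ω₀] [IsAlgClosure K B₀] (s : GalSection K F₀ Ω₀ B₀),
    ∃ O : ValuationSubring F₀, s.ArisesFrom O ∧ ∃ e ∈ E, (x - algebraMap K F₀ e)⁻¹ ∉ O

/-- **part L (local values)**: at all the local points `x` has one of the values in `E` -/
def S_LOCV : Prop := ∀ (n : ℕ) (k F₀ F Ω B : Type) [Field k] [Field F₀] [Field F] [Field Ω]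
  [Field B] [Algebra ℚ k] [Algebra ℚ F₀] [Algebra k F] [Algebra F Ω] [Algebra k Ω]
  [Algebra k B] [IsScalarTower k F Ω] [IsAlgClosure F Ω] [IsAlgClosure k B] (t : Fin n → k),
  RatFn ℚ t → ∀ (i₀ : F₀ →+* F) (x : F₀) (E : Finset ℚ), AllGeo ℚ F₀ x E →
  Transcendental k (i₀ x) → ∀ (s : GalSection k F Ω B) (p : ℕ) [Fact p.Prime] (C : Type) [Field C]
    [Algebra k ℚ_[p]] [Algebra ℚ_[p] C] [Algebra k C] [IsScalarTower k ℚ_[p] C]
    [IsAlgClosure ℚ_[p] C] (pl : Plc k Ω C), s.GivenBy ℚ_[p] pl →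
    pl.val (algebraMap F Ω (∏ e ∈ E, (i₀ x - algebraMap k F (algebraMap ℚ k e)))) 0

/-- the obstruction over `k`: a finite stable set of irrational elements of `B`; `I` is a set of
embeddings of `k` in fields `L i` -/
def Obs (k B : Type) [Field k] [Field B] [Algebra k B] {I : Type} (L C : I → Type)
    [∀ i, Field (L i)] [∀ i, Field (C i)] [∀ i, Algebra k (L i)] [∀ i, Algebra (L i) (C i)]
    [∀ i, Algebra k (C i)] : Prop :=
  ∀ T : Finset B, (∀ σ : B ≃ₐ[k] B, ∀ θ ∈ T, σ θ ∈ T) → (∀ θ ∈ T, ∃ σ : B ≃ₐ[k] B, σ θ ≠ θ) →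
    ∃ (l : ℕ) (a : k), 1 ≤ l ∧ ∀ c : k, c ≠ 0 → ∃ i : I, ∀ (ι : B →ₐ[k] C i), ∀ θ ∈ T, ∀ z : L i,
      ι (θ - algebraMap k B a) ≠ algebraMap (L i) (C i) (algebraMap k (L i) c * z ^ l)

/-- **part U (limits)**: a birational section given by places over the fields `L i`, at which one
function vanishes, arises from exactly one rational place -/
def S_ULT : Prop := ∀ (k F Ω B I : Type) [Field k] [CharZero k] [Field F] [Field Ω] [Field B]
  [Algebra k F] [Algebra F Ω] [Algebra k Ω] [Algebra k B] [IsScalarTower k F Ω] [IsAlgClosure F Ω]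
  [IsAlgClosure k B] (L C : I → Type) [∀ i, Field (L i)] [∀ i, Field (C i)]
  [∀ i, Algebra k (L i)] [∀ i, Algebra (L i) (C i)] [∀ i, Algebra k (C i)]
  [∀ i, IsScalarTower k (L i) (C i)] [∀ i, IsAlgClosure (L i) (C i)], Obs k B L C →
  (∃ t : F, Transcendental k t ∧ Algebra.IsAlgebraic (IntermediateField.adjoin k {t}) F) →
  ∀ (s : GalSection k F Ω B) (pl : ∀ i, Plc k Ω (C i)), (∀ i, s.GivenBy (L i) (pl i)) →
  ∀ f : F, f ≠ 0 → (∀ i, (pl i).val (algebraMap F Ω f) 0) →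
  ∃ O : ValuationSubring F, f⁻¹ ∉ O ∧ s.ArisesFrom O ∧
    ∀ O' : ValuationSubring F, s.ArisesFrom O' → O' = O

/-- **part O (obstruction)**: for the field of rational functions over `ℚ`, for every finite stable set
of irrational elements; the embedding `φ` of `k` in `ℚ_p` depends on `c` -/
def S_OBS : Prop := ∀ (n : ℕ) (k B : Type) [Field k] [Field B] [Algebra ℚ k] [Algebra k B]
  [IsAlgClosure k B] (t : Fin n → k), RatFn ℚ t → ∀ T : Finset B,
  (∀ σ : B ≃ₐ[k] B, ∀ θ ∈ T, σ θ ∈ T) → (∀ θ ∈ T, ∃ σ : B ≃ₐ[k] B, σ θ ≠ θ) →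
    ∃ (l : ℕ) (a : k), 1 ≤ l ∧ ∀ c : k, c ≠ 0 → ∃ (p : ℕ) (_ : Fact p.Prime) (φ : k →+* ℚ_[p]),
      ∀ (C : Type) [Field C] (κ : ℚ_[p] →+* C) (ι : B →+* C),
        (∀ y : k, ι (algebraMap k B y) = κ (φ y)) → ∀ θ ∈ T, ∀ z : ℚ_[p],
        ι (θ - algebraMap k B a) ≠ κ (φ c * z ^ l)

/-- **part O1**: the specialisation of the obstruction. A monic polynomial over `ℚ(t)` whose
coefficients are polynomials and which has no root in `k` has no rational root for some value `a` of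
`t` at which a given polynomial `D` does not vanish. -/
def S_HIT : Prop := ∀ (n : ℕ) (f : Polynomial (MvPolynomial (Fin n) ℚ)), f.Monic →
  (∀ g : MvPolynomial (Fin n) ℚ, f.eval g ≠ 0) → ∀ D : MvPolynomial (Fin n) ℚ, D ≠ 0 →
  ∃ a : Fin n → ℚ, MvPolynomial.eval a D ≠ 0 ∧
    ∀ y : ℚ, (f.map (MvPolynomial.eval a)).eval y ≠ 0

/-- **part O2**: approximation. For a monic polynomial `f` over `ℚ[t]`, `a ∈ ℚ^n`, and `c ≠ 0` in
`ℚ(t)`, `l ≥ 1`: there is `c₀ ∈ ℚ` such that for all `p`, if the values of `f` over `c₀ (ℚ_p)^l + b` at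
`a` have no zeros, the same is true for some embedding of `ℚ(t)` in `ℚ_p`. -/
def S_APP2 : Prop := ∀ (n : ℕ) (f : Polynomial (MvPolynomial (Fin n) ℚ)), f.Monic →
  ∀ (a : Fin n → ℚ) (b : ℚ) (l : ℕ), 1 ≤ l →
  (f.map (MvPolynomial.eval a)).eval b ≠ 0 → ∀ P Q : MvPolynomial (Fin n) ℚ, P ≠ 0 → Q ≠ 0 →
  ∃ c₀ : ℚ, c₀ ≠ 0 ∧ ∀ (p : ℕ) [Fact p.Prime],
    (∀ z : ℚ_[p], (f.map ((algebraMap ℚ ℚ_[p]).comp (MvPolynomial.eval a))).eval
      (algebraMap ℚ ℚ_[p] b + algebraMap ℚ ℚ_[p] c₀ * z ^ l) ≠ 0) →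
    ∃ τ : Fin n → ℚ_[p], AlgebraicIndependent ℚ τ ∧ ∀ z : ℚ_[p],
      (f.map (MvPolynomial.aeval τ : MvPolynomial (Fin n) ℚ →ₐ[ℚ] ℚ_[p]).toRingHom).eval
        (algebraMap ℚ ℚ_[p] b + MvPolynomial.aeval τ P / MvPolynomial.aeval τ Q * z ^ l) ≠ 0

end Pool.Agent.Zk12.FG
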