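import Mathlib
import Pool.Agent.Zk12.FG.Stm
import Pool.Agent.Zk95.BS.Final
import Pool.Agent.Zk94.FG.UltMain
import Pool.Agent.Zk95.FG.Pow

/-!
# Project FG: birational sections over fields of rational functions: the assembly
-/

set_option autoImplicit false
set_option linter.all false

open Polynomial IntermediateField

namespace Pool.Agent.Zk12.FG

open Pool.Agent.TH954 Pool.Agent.Zk95.BS
open Pool.Agent.Zk94.FG (S_ULT2 ult)
open Pool.Agent.Zk95.TD (CrossRatio Progressions)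

attribute [-instance] DivisionRing.toRatAlgebra SubfieldClass.instSMulRat
attribute [local instance 1] DivisionRing.toRatAlgebra

instance factN (p : Nat.Primes) : Fact (Nat.Prime (p : ℕ)) := ⟨p.2⟩

section

variable (k : Type) [Field k]

/-- the embeddings of `k` in the fields `ℚ_p` -/
abbrev Emb : Type := Σ p : Nat.Primes, (k →+* ℚ_[(p : ℕ)])

variable {k}

/-- the completion -/
def EL (i : Emb k) : Type := ℚ_[(i.1 : ℕ)]

noncomputable instance (i : Emb k) : Field (EL i) := inferInstanceAs (Field ℚ_[(i.1 : ℕ)])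

noncomputable instance (i : Emb k) : Algebra k (EL i) := (show k →+* ℚ_[(i.1 : ℕ)] from i.2).toAlgebra

/-- its algebraic closure -/
def EC (i : Emb k) : Type := AlgebraicClosure ℚ_[(i.1 : ℕ)]

noncomputable instance (i : Emb k) : Field (EC i) :=
  inferInstanceAs (Field (AlgebraicClosure ℚ_[(i.1 : ℕ)]))

noncomputable instance (i : Emb k) : Algebra (EL i) (EC i) :=
  inferInstanceAs (Algebra ℚ_[(i.1 : ℕ)] (AlgebraicClosure ℚ_[(i.1 : ℕ)]))

noncomputable instance (i : Emb k) : Algebra k (EC i) :=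
  ((algebraMap (EL i) (EC i)).comp (algebraMap k (EL i))).toAlgebra

instance (i : Emb k) : IsScalarTower k (EL i) (EC i) := IsScalarTower.of_algebraMap_eq fun _ => rfl

instance (i : Emb k) : IsAlgClosure (EL i) (EC i) :=
  inferInstanceAs (IsAlgClosure ℚ_[(i.1 : ℕ)] (AlgebraicClosure ℚ_[(i.1 : ℕ)]))

end

theorem obs_emb (hOBS : S_OBS) (n : ℕ) (k B : Type) [Field k] [Field B] [Algebra ℚ k] [Algebra k B]
    [IsAlgClosure k B] (t : Fin n → k) (ht : RatFn ℚ t) :
    Obs k B (fun i : Emb k => EL i) (fun i => EC i) := by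
  intro T hT hne
  obtain ⟨l, a, hl, h⟩ := hOBS n k B t ht T hT hne
  refine ⟨l, a, hl, fun c hc => ?_⟩
  obtain ⟨p, hp, φ, h1⟩ := h c hc
  refine ⟨⟨⟨p, hp.out⟩, φ⟩, fun ι θ hθ z h2 => ?_⟩
  exact h1 (EC (k := k) ⟨⟨p, hp.out⟩, φ⟩) (algebraMap (EL (k := k) ⟨⟨p, hp.out⟩, φ⟩)
    (EC (k := k) ⟨⟨p, hp.out⟩, φ⟩)) ι (fun y => ι.commutes y) θ hθ z h2

/-- `2` is not infinitely divisible -/
theorem two_div (hOBS : S_OBS) (n : ℕ) (k B : Type) [Field k] [Field B] [Algebra ℚ k] [Algebra k B]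
    [IsAlgClosure k B] (t : Fin n → k) (ht : RatFn ℚ t) : ∃ N : ℕ, 0 < N ∧ ∀ c : k, c ^ N ≠ 2 := by
  obtain ⟨l, a, hl, h⟩ := obs_emb hOBS n k B t ht ∅ (fun _ _ h => absurd h (Finset.notMem_empty _))
    (fun _ h => absurd h (Finset.notMem_empty _))
  obtain ⟨i, -⟩ := h 1 one_ne_zero
  by_contra hcon
  push Not at hcon
  have h1 := Pool.Agent.Zk95.FG.pow (i.1 : ℕ) (2 : ℚ_[(i.1 : ℕ)]) two_ne_zero (fun m hm => by
    obtain ⟨c, hc⟩ := hcon m hm
    refine ⟨i.2 c, ?_⟩
    rw [← map_pow, hc, map_ofNat])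
  norm_num at h1

theorem koe_emb (hKOE : S_KOEP) {k F Ω B : Type} [Field k] [Field F] [Field Ω] [Field B]
    [Algebra k F] [Algebra F Ω] [Algebra k Ω] [Algebra k B] [IsScalarTower k F Ω]
    [IsAlgClosure F Ω] [IsAlgClosure k B] (s : GalSection k F Ω B) (i : Emb k) :
    ∃ pl : Plc k Ω (EC i), s.GivenBy (EL i) pl := by
  letI a1 : Algebra k ℚ_[(i.1 : ℕ)] := (inferInstance : Algebra k (EL i))
  letI a2 : Algebra ℚ_[(i.1 : ℕ)] (EC i) := (inferInstance : Algebra (EL i) (EC i))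
  haveI : IsScalarTower k ℚ_[(i.1 : ℕ)] (EC i) := inferInstanceAs (IsScalarTower k (EL i) (EC i))
  haveI : IsAlgClosure ℚ_[(i.1 : ℕ)] (EC i) := inferInstanceAs (IsAlgClosure (EL i) (EC i))
  exact hKOE (i.1 : ℕ) k F Ω B (EC i) s

theorem loc_emb (hLOC : S_LOCV) (n : ℕ) {k F₀ F Ω B : Type} [Field k] [Field F₀] [Field F]
    [Field Ω] [Field B] [Algebra ℚ k] [Algebra ℚ F₀] [Algebra k F] [Algebra F Ω] [Algebra k Ω]
    [Algebra k B] [IsScalarTower k F Ω] [IsAlgClosure F Ω] [IsAlgClosure k B] (t : Fin n → k)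
    (ht : RatFn ℚ t) (i₀ : F₀ →+* F) (x : F₀) (E : Finset ℚ) (hE : AllGeo ℚ F₀ x E)
    (hx : Transcendental k (i₀ x)) (s : GalSection k F Ω B) (i : Emb k) (pl : Plc k Ω (EC i))
    (hpl : s.GivenBy (EL i) pl) :
    pl.val (algebraMap F Ω (∏ e ∈ E, (i₀ x - algebraMap k F (algebraMap ℚ k e)))) 0 := by
  letI a1 : Algebra k ℚ_[(i.1 : ℕ)] := (inferInstance : Algebra k (EL i))
  letI a2 : Algebra ℚ_[(i.1 : ℕ)] (EC i) := (inferInstance : Algebra (EL i) (EC i))
  haveI : IsScalarTower k ℚ_[(i.1 : ℕ)] (EC i) := inferInstanceAs (IsScalarTower k (EL i) (EC i))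
  haveI : IsAlgClosure ℚ_[(i.1 : ℕ)] (EC i) := inferInstanceAs (IsAlgClosure (EL i) (EC i))
  exact hLOC n k F₀ F Ω B t ht i₀ x E hE hx s (i.1 : ℕ) (EC i) pl hpl

/-- the theorem for one field, from the sections of the small field -/
theorem geo_of (hOBS : S_OBS) (hKOE : S_KOEP) (hLOC : S_LOCV) (n : ℕ)
    (k F₀ F Ω B : Type) [Field k] [Field F₀] [Field F] [Field Ω] [Field B] [Algebra ℚ k]
    [Algebra ℚ F₀] [Algebra k F] [Algebra F Ω] [Algebra k Ω] [Algebra k B] [IsScalarTower k F Ω]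
    [IsAlgClosure F Ω] [IsAlgClosure k B] (t : Fin n → k) (ht : RatFn ℚ t) (i₀ : F₀ →+* F) (x : F₀)
    (E : Finset ℚ) (hE : AllGeo ℚ F₀ x E) (hx : Transcendental k (i₀ x))
    (hF : Algebra.IsAlgebraic (IntermediateField.adjoin k {i₀ x}) F) (s : GalSection k F Ω B) :
    ∃ O : ValuationSubring F, s.ArisesFrom O ∧
      (∀ O' : ValuationSubring F, s.ArisesFrom O' → O' = O) ∧
      ∃ e ∈ E, (i₀ x - algebraMap k F (algebraMap ℚ k e))⁻¹ ∉ O := by
  haveI : CharZero k := algebraRat.charZero k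
  have hne : ∀ c : k, i₀ x - algebraMap k F c ≠ 0 := by
    intro c h
    apply hx
    rw [sub_eq_zero.1 h]
    exact isAlgebraic_algebraMap c
  choose pl hpl using fun i : Emb k => koe_emb hKOE s i
  obtain ⟨O, h1, h2, h3⟩ := ult k F Ω B (Emb k) (fun i => EL i) (fun i => EC i)
    (obs_emb hOBS n k B t ht) (two_div hOBS n k B t ht) ⟨i₀ x, hx, hF⟩ s pl (fun i => hpl i)
    (∏ e ∈ E, (i₀ x - algebraMap k F (algebraMap ℚ k e)))
    (Finset.prod_ne_zero_iff.2 fun e _ => hne _) (fun i =>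
      loc_emb hLOC n t ht i₀ x E hE hx s i (pl i) (hpl i))
  refine ⟨O, h2, h3, ?_⟩
  by_contra hcon
  push Not at hcon
  apply h1
  rw [← Finset.prod_inv_distrib]
  exact prod_mem hcon

/-- Let `k = ℚ(t_1, …, t_n)` and let `F` be an extension of `k` with elements `x`, `y`,
`d y² = ∏ (x - e_i)`, where `x` is transcendental over `k` and `F` is algebraic over `k(x)`, that is,
the function field of the curve `d y² = ∏ (x - e_i)` over `k` or of a curve over `k` that dominates it,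
and let `Ω` be an algebraic closure of `F`.  EVERY section of `Gal(Ω/F) → G_k` arises from exactly one
rational point, and `x = e_i` there for some `i`. -/
def AllSectionsK {K : Type} [Fintype K] (e : K → ℤ) (d : ℤ) : Prop :=
  ∀ (n : ℕ) (k F Ω B : Type) [Field k] [Field F] [Field Ω] [Field B] [Algebra ℚ k] [Algebra k F]
    [Algebra F Ω] [Algebra k Ω] [Algebra k B] [IsScalarTower k F Ω] [IsAlgClosure F Ω]
    [IsAlgClosure k B] (t : Fin n → k) (x y : F), AlgebraicIndependent ℚ t →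
    IntermediateField.adjoin ℚ (Set.range t) = ⊤ →
    Transcendental k x → Algebra.IsAlgebraic (IntermediateField.adjoin k {x}) F →
    (d : F) * y ^ 2 = ∏ i, (x - (e i : F)) →
    ∀ s : GalSection k F Ω B,
      (∃! O : ValuationSubring F, s.ArisesFrom O) ∧
        ∃ i, ∀ O : ValuationSubring F, s.ArisesFrom O → (x - (e i : F))⁻¹ ∉ O

theorem allK_of (hOBS : S_OBS) (hKOE : S_KOEP) (hLOC : S_LOCV) {K : Type}
    [Fintype K] {e : K → ℤ} {d : ℤ} (hd : d ≠ 0) (hall : AllSections e d) : AllSectionsK e d := by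
  classical
  intro n k F Ω B _ _ _ _ _ _ _ _ _ _ _ _ t x y ht1 ht2 hx hF hxy s
  haveI : CharZero k := algebraRat.charZero k
  haveI : CharZero F := charZero_of_injective_algebraMap (algebraMap k F).injective
  letI : Algebra ℚ F := DivisionRing.toRatAlgebra
  haveI : IsScalarTower ℚ k F := IsScalarTower.of_algebraMap_eq' (Subsingleton.elim _ _)
  have hxQ : Transcendental ℚ x := by
    intro h
    exact hx (h.tower_top k)
  let F₀ : IntermediateField ℚ F := IntermediateField.adjoin ℚ {x, y}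
  have hxm : x ∈ F₀ := IntermediateField.subset_adjoin _ _ (Set.mem_insert _ _)
  have hym : y ∈ F₀ := IntermediateField.subset_adjoin _ _ (Set.mem_insert_of_mem _ rfl)
  let x₀ : F₀ := ⟨x, hxm⟩
  let y₀ : F₀ := ⟨y, hym⟩
  have hxy₀ : (d : F₀) * y₀ ^ 2 = ∏ i, (x₀ - (e i : F₀)) := by
    apply Subtype.ext
    have h1 : (((∏ i, (x₀ - (e i : F₀)) : F₀)) : F) = ∏ i, (x - (e i : F)) := by
      have h2 := map_prod (algebraMap F₀ F) (fun i => x₀ - (e i : F₀)) Finset.univ
      change (algebraMap F₀ F) (∏ i, (x₀ - (e i : F₀))) = _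
      rw [h2]
      refine Finset.prod_congr rfl fun i _ => ?_
      rw [map_sub, map_intCast]
      rfl
    rw [h1, ← hxy]
    push_cast
    rfl
  have hx₀ : Transcendental ℚ x₀ := by
    intro h
    exact hxQ (h.algebraMap (A := F))
  have hF₀ : Algebra.IsAlgebraic (IntermediateField.adjoin ℚ {x₀}) F₀ := by
    -- `y₀` is algebraic over `ℚ(x₀)`
    have hyalg : IsAlgebraic (IntermediateField.adjoin ℚ {x₀}) y₀ := by
      have hxmem : x₀ ∈ IntermediateField.adjoin ℚ {x₀} := IntermediateField.mem_adjoin_simple_self ℚ x₀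
      let X' : IntermediateField.adjoin ℚ {x₀} := ⟨x₀, hxmem⟩
      have hdne : ((d : IntermediateField.adjoin ℚ {x₀})) ≠ 0 := by
        exact_mod_cast hd
      have hpow : IsAlgebraic (IntermediateField.adjoin ℚ {x₀}) (y₀ ^ 2) := by
        have h3 : y₀ ^ 2 = algebraMap (IntermediateField.adjoin ℚ {x₀}) F₀
            ((d : IntermediateField.adjoin ℚ {x₀})⁻¹ *
              ∏ i, (X' - (e i : IntermediateField.adjoin ℚ {x₀}))) := by
          have h4 : (d : F₀) ≠ 0 := by exact_mod_cast hd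
          rw [map_mul, map_inv₀, map_intCast, map_prod]
          have h5 : ∏ i, algebraMap (IntermediateField.adjoin ℚ {x₀}) F₀
              (X' - (e i : IntermediateField.adjoin ℚ {x₀})) = ∏ i, (x₀ - (e i : F₀)) := by
            refine Finset.prod_congr rfl fun i _ => ?_
            rw [map_sub, map_intCast]
            rfl
          rw [h5, ← hxy₀, ← mul_assoc, inv_mul_cancel₀ h4, one_mul]
        rw [h3]
        exact isAlgebraic_algebraMap _
      exact hpow.of_pow two_pos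
    have htop : IntermediateField.adjoin (IntermediateField.adjoin ℚ {x₀}) {y₀} = ⊤ := by
      apply IntermediateField.restrictScalars_injective ℚ
      rw [IntermediateField.adjoin_adjoin_left, IntermediateField.restrictScalars_top]
      rw [eq_top_iff]
      rintro ⟨z, hz⟩ -
      have h6 : ∀ w : F, w ∈ F₀ → ∀ hw : w ∈ F₀, (⟨w, hw⟩ : F₀) ∈
          IntermediateField.adjoin ℚ ({x₀} ∪ {y₀}) := by
        intro w hw
        have h7 : F₀ ≤ (IntermediateField.adjoin ℚ ({x₀} ∪ {y₀})).map F₀.val := by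
          rw [IntermediateField.adjoin_le_iff]
          rintro w (rfl | hw)
          · exact ⟨x₀, IntermediateField.subset_adjoin _ _ (Or.inl rfl), rfl⟩
          · rw [Set.mem_singleton_iff.1 hw]
            exact ⟨y₀, IntermediateField.subset_adjoin _ _ (Or.inr rfl), rfl⟩
        intro hw'
        obtain ⟨w', hw1, hw2⟩ := h7 hw
        have h8 : w' = ⟨w, hw'⟩ := Subtype.ext hw2
        rw [← h8]
        exact hw1
      exact h6 z hz hz
    haveI := IntermediateField.isAlgebraic_adjoin (K := IntermediateField.adjoin ℚ {x₀})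
      (S := ({y₀} : Set F₀)) (by
        intro z hz
        rw [Set.mem_singleton_iff.1 hz]
        exact hyalg.isIntegral)
    rw [htop] at this
    exact (IntermediateField.topEquiv (F := IntermediateField.adjoin ℚ {x₀})
      (E := F₀)).isAlgebraic
  have hE : AllGeo ℚ F₀ x₀ (Finset.univ.image fun i => (e i : ℚ)) := by
    intro Ω₀ B₀ _ _ _ _ _ _ _ _ s₀
    obtain ⟨⟨O, hO, -⟩, i, hi⟩ := hall F₀ Ω₀ B₀ x₀ y₀ hx₀ hF₀ hxy₀ s₀
    exact ⟨O, hO, (e i : ℚ), Finset.mem_image.2 ⟨i, Finset.mem_univ _, rfl⟩, hi O hO⟩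
  obtain ⟨O, h1, h2, q, hq, h3⟩ := geo_of hOBS hKOE hLOC n k F₀ F Ω B t ⟨ht1, ht2⟩
    (algebraMap F₀ F) x₀ _ hE hx hF s
  obtain ⟨i, -, rfl⟩ := Finset.mem_image.1 hq
  refine ⟨⟨O, h1, fun O' h => h2 O' h⟩, i, fun O' h => ?_⟩
  rw [h2 O' h]
  have h4 : algebraMap k F (algebraMap ℚ k ((e i : ℤ) : ℚ)) = (e i : F) := by
    rw [map_intCast, map_intCast]
  rw [h4] at h3
  exact h3

/-- almost all quadratic twists: all birational sections over all fields of rational functions -/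
theorem final_of (hOBS : S_OBS) (hKOE : S_KOEP) (hLOC : S_LOCV) (K : Type)
    [Fintype K] (e : K → ℤ) (he : Function.Injective e) (hev : Even (Fintype.card K))
    (hK : 6 ≤ Fintype.card K) (hCR : CrossRatio e) (hPr : Progressions e) : ∃ C : ℝ, ∀ X : ℕ, 2 ≤ X →
      ({d : ℤ | d.natAbs ≤ X ∧ Squarefree d ∧ ¬ AllSectionsK e d}.ncard : ℝ) ≤
        C * X * (Real.log X) ^ (-(1 / 5) : ℝ) :=
  count he hev hK hCR _ fun d hd hbad => allK_of hOBS hKOE hLOC hd (all he hPr hbad)

end Pool.Agent.Zk12.FG
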