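import Mathlib
import Pool.Agent.Zk12.FG.Stm
import Pool.Agent.TH954.SObs2

/-!
# Project FG: the obstruction over fields of rational functions
-/

set_option autoImplicit false
set_option linter.all false

open Polynomial NumberField IsDedekindDomain

namespace Pool.Agent.Zk12.FG

open Pool.Agent.TH954

attribute [-instance] DivisionRing.toRatAlgebra SubfieldClass.instSMulRat
attribute [local instance 1] DivisionRing.toRatAlgebra

instance factP (v : HeightOneSpectrum (𝓞 ℚ)) :
    Fact (Nat.Prime (Rat.HeightOneSpectrum.primesEquiv v : ℕ)) :=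
  ⟨(Rat.HeightOneSpectrum.primesEquiv v).2⟩

/-- the homomorphism from `ℚ_p` to the completion -/
noncomputable def toAd (v : HeightOneSpectrum (𝓞 ℚ)) :
    ℚ_[(Rat.HeightOneSpectrum.primesEquiv v : ℕ)] →+* v.adicCompletion ℚ :=
  (((Rat.HeightOneSpectrum.adicCompletion.padicEquiv v).symm : _ ≃A[ℚ] _) :
    _ →+* v.adicCompletion ℚ)

theorem rat_unique {R : Type} [Ring R] (f g : ℚ →+* R) : f = g := Subsingleton.elim f g

section

variable {n : ℕ} {k : Type} [Field k] [Algebra ℚ k] {t : Fin n → k}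

/-- every element is a quotient of polynomials -/
theorem RatFn.exists_quot (ht : RatFn ℚ t) (c : k) : ∃ P Q : MvPolynomial (Fin n) ℚ, Q ≠ 0 ∧
    c = MvPolynomial.aeval t P / MvPolynomial.aeval t Q := by
  have hc : c ∈ IntermediateField.adjoin ℚ (Set.range t) := by
    rw [ht.2]
    exact IntermediateField.mem_top
  obtain ⟨P, Q, h⟩ := (IntermediateField.mem_adjoin_range_iff ℚ t c).1 hc
  by_cases hQ : Q = 0
  · refine ⟨0, 1, one_ne_zero, ?_⟩
    rw [h, hQ, map_zero, div_zero, zero_div]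
  · exact ⟨P, Q, hQ, h⟩

theorem RatFn.inj (ht : RatFn ℚ t) : Function.Injective
    (MvPolynomial.aeval t : MvPolynomial (Fin n) ℚ →ₐ[ℚ] k) := ht.1

theorem RatFn.frac (ht : RatFn ℚ t) :
    letI := (MvPolynomial.aeval t : MvPolynomial (Fin n) ℚ →ₐ[ℚ] k).toRingHom.toAlgebra
    IsFractionRing (MvPolynomial (Fin n) ℚ) k := by
  letI := (MvPolynomial.aeval t : MvPolynomial (Fin n) ℚ →ₐ[ℚ] k).toRingHom.toAlgebra
  have hmap : ∀ P : MvPolynomial (Fin n) ℚ, algebraMap (MvPolynomial (Fin n) ℚ) k P =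
      MvPolynomial.aeval t P := fun P => rfl
  haveI : FaithfulSMul (MvPolynomial (Fin n) ℚ) k := by
    rw [faithfulSMul_iff_algebraMap_injective]
    exact ht.inj
  refine IsFractionRing.of_field _ _ fun c => ?_
  obtain ⟨P, Q, hQ, h⟩ := ht.exists_quot c
  exact ⟨P, Q, h⟩

/-- the embedding given by algebraically independent values -/
theorem RatFn.exists_hom (ht : RatFn ℚ t) {p : ℕ} [Fact p.Prime] {τ : Fin n → ℚ_[p]}
    (hτ : AlgebraicIndependent ℚ τ) : ∃ φ : k →+* ℚ_[p], ∀ P : MvPolynomial (Fin n) ℚ,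
      φ (MvPolynomial.aeval t P) = MvPolynomial.aeval τ P := by
  letI := (MvPolynomial.aeval t : MvPolynomial (Fin n) ℚ →ₐ[ℚ] k).toRingHom.toAlgebra
  haveI := ht.frac
  let g : MvPolynomial (Fin n) ℚ →+* ℚ_[p] :=
    (MvPolynomial.aeval τ : MvPolynomial (Fin n) ℚ →ₐ[ℚ] ℚ_[p]).toRingHom
  have hg : Function.Injective g := hτ
  refine ⟨IsFractionRing.lift hg, fun P => ?_⟩
  exact IsFractionRing.lift_algebraMap hg P

end

/-- the polynomial of a stable finite set, up to a denominator -/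
theorem exists_poly {n : ℕ} {k B : Type} [Field k] [Field B] [Algebra ℚ k] [Algebra k B]
    [IsAlgClosure k B] {t : Fin n → k} (ht : RatFn ℚ t) (T : Finset B)
    (hT : ∀ σ : B ≃ₐ[k] B, ∀ θ ∈ T, σ θ ∈ T) :
    ∃ (D : MvPolynomial (Fin n) ℚ) (f : Polynomial (MvPolynomial (Fin n) ℚ)), D ≠ 0 ∧ f.Monic ∧
      f.map ((algebraMap k B).comp
        (MvPolynomial.aeval t : MvPolynomial (Fin n) ℚ →ₐ[ℚ] k).toRingHom) =
        ∏ θ ∈ T, (X - C (algebraMap k B (MvPolynomial.aeval t D) * θ)) := by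
  classical
  haveI : Algebra.IsAlgebraic k B := IsAlgClosure.isAlgebraic
  haveI : IsAlgClosed B := IsAlgClosure.isAlgClosed k
  haveI : CharZero k := algebraRat.charZero k
  haveI : Normal k B := IsAlgClosure.normal k B
  haveI : IsGalois k B := { }
  letI a1 := (MvPolynomial.aeval t : MvPolynomial (Fin n) ℚ →ₐ[ℚ] k).toRingHom.toAlgebra
  letI a2 := ((algebraMap k B).comp
    (MvPolynomial.aeval t : MvPolynomial (Fin n) ℚ →ₐ[ℚ] k).toRingHom).toAlgebra
  haveI : IsScalarTower (MvPolynomial (Fin n) ℚ) k B := IsScalarTower.of_algebraMap_eq fun _ => rfl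
  haveI hfr := ht.frac
  -- a common denominator
  have hden : ∀ S : Finset B, ∃ D : MvPolynomial (Fin n) ℚ, D ≠ 0 ∧
      ∀ θ ∈ S, IsIntegral (MvPolynomial (Fin n) ℚ) (algebraMap (MvPolynomial (Fin n) ℚ) B D * θ) := by
    intro S
    induction S using Finset.induction_on with
    | empty => exact ⟨1, one_ne_zero, fun θ hθ => absurd hθ (Finset.notMem_empty θ)⟩
    | insert θ0 S h0 ih =>
      obtain ⟨D, hD, h⟩ := ih
      have h1 : IsAlgebraic (MvPolynomial (Fin n) ℚ) θ0 :=
        (IsFractionRing.isAlgebraic_iff (MvPolynomial (Fin n) ℚ) k B).2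
          (Algebra.IsAlgebraic.isAlgebraic θ0)
      obtain ⟨y, hy0, hy⟩ := h1.exists_integral_multiple
      rw [Algebra.smul_def] at hy
      refine ⟨D * y, mul_ne_zero hD hy0, fun θ hθ => ?_⟩
      rcases Finset.mem_insert.1 hθ with rfl | hθ
      · rw [map_mul, mul_assoc]
        exact isIntegral_algebraMap.mul hy
      · rw [map_mul, mul_comm (algebraMap _ B D), mul_assoc]
        exact isIntegral_algebraMap.mul (h θ hθ)
  obtain ⟨D, hD, hint⟩ := hden T
  set q : Polynomial B := ∏ θ ∈ T, (X - C (algebraMap k B (MvPolynomial.aeval t D) * θ)) with hq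
  have hqm : q.Monic := monic_prod_of_monic _ _ fun θ _ => monic_X_sub_C _
  -- the coefficients are in `k`
  have hqk : ∀ i, ∃ c : k, algebraMap k B c = q.coeff i := by
    intro i
    have h1 : q.coeff i ∈ (⊥ : IntermediateField k B) := by
      rw [InfiniteGalois.mem_bot_iff_fixed]
      intro σ
      have h2 : q.map (σ : B →+* B) = q := by
        rw [hq, Polynomial.map_prod]
        refine Finset.prod_bij (fun θ _ => σ θ) (fun θ hθ => hT σ θ hθ)
          (fun a _ b _ h => σ.injective h) (fun θ hθ => ⟨σ.symm θ, ?_, σ.apply_symm_apply θ⟩)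
          (fun θ hθ => ?_)
        · have := hT σ⁻¹ θ hθ
          exact this
        · rw [Polynomial.map_sub, map_X, map_C]
          congr 2
          rw [map_mul]
          congr 1
          exact σ.commutes _
      have h3 := congrArg (fun f => coeff f i) h2
      simp only [coeff_map] at h3
      exact h3
    obtain ⟨c, hc⟩ := IntermediateField.mem_bot.1 h1
    exact ⟨c, hc⟩
  have hqint : ∀ i, IsIntegral (MvPolynomial (Fin n) ℚ) (q.coeff i) := by
    intro i
    have h1 : ∀ θ ∈ T, (X - C (algebraMap k B (MvPolynomial.aeval t D) * θ)) ∈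
        Polynomial.lifts (algebraMap (integralClosure (MvPolynomial (Fin n) ℚ) B) B) := by
      intro θ hθ
      rw [Polynomial.lifts, RingHom.mem_rangeS]
      refine ⟨X - C ⟨_, hint θ hθ⟩, ?_⟩
      rw [Polynomial.coe_mapRingHom, Polynomial.map_sub, map_X, map_C]
      rfl
    have h2 : q ∈ Polynomial.lifts (algebraMap (integralClosure (MvPolynomial (Fin n) ℚ) B) B) := by
      rw [hq]
      exact prod_mem h1
    obtain ⟨c, hc⟩ := (Polynomial.lifts_iff_coeff_lifts _).1 h2 i
    rw [← hc]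
    exact c.2
  choose ck hck using hqk
  have hA : ∀ i, ∃ P : MvPolynomial (Fin n) ℚ, algebraMap (MvPolynomial (Fin n) ℚ) k P = ck i := by
    intro i
    have h1 : IsIntegral (MvPolynomial (Fin n) ℚ) (ck i) := by
      rw [← isIntegral_algebraMap_iff (algebraMap k B).injective, hck i]
      exact hqint i
    exact IsIntegrallyClosed.isIntegral_iff.1 h1
  have hl : q ∈ Polynomial.lifts ((algebraMap k B).comp
      (MvPolynomial.aeval t : MvPolynomial (Fin n) ℚ →ₐ[ℚ] k).toRingHom) := by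
    rw [Polynomial.lifts_iff_coeff_lifts]
    intro i
    obtain ⟨P, hP⟩ := hA i
    refine ⟨P, ?_⟩
    rw [← hck i, ← hP]
    rfl
  obtain ⟨f, hf1, -, hf2⟩ := lifts_and_natDegree_eq_and_monic hl hqm
  exact ⟨D, f, hD, hf2, hf1⟩

theorem obs_of (hHIT : S_HIT) (hAPP : S_APP2) : S_OBS := by
  classical
  intro n k B _ _ _ _ _ t ht T hT hne
  haveI : Algebra.IsAlgebraic k B := IsAlgClosure.isAlgebraic
  obtain ⟨D, f, hD, hfm, hf⟩ := exists_poly ht T hT
  have hDk : MvPolynomial.aeval t D ≠ 0 := by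
    intro h
    exact hD (ht.inj (by rw [h, map_zero]))
  have hDB : algebraMap k B (MvPolynomial.aeval t D) ≠ 0 := (_root_.map_ne_zero _).2 hDk
  -- no root
  have hroot : ∀ g : MvPolynomial (Fin n) ℚ, f.eval g ≠ 0 := by
    intro g hg
    have h1 := congrArg (fun q : Polynomial B => q.eval (algebraMap k B (MvPolynomial.aeval t g))) hf
    have h2 : (f.map ((algebraMap k B).comp
        (MvPolynomial.aeval t : MvPolynomial (Fin n) ℚ →ₐ[ℚ] k).toRingHom)).eval
        (algebraMap k B (MvPolynomial.aeval t g)) = 0 := by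
      have h3 : algebraMap k B (MvPolynomial.aeval t g) = ((algebraMap k B).comp
        (MvPolynomial.aeval t : MvPolynomial (Fin n) ℚ →ₐ[ℚ] k).toRingHom) g := rfl
      rw [h3, eval_map_apply, hg, map_zero]
    simp only [h2] at h1
    rw [eval_prod, eq_comm, Finset.prod_eq_zero_iff] at h1
    obtain ⟨θ, hθ, h3⟩ := h1
    rw [eval_sub, eval_X, eval_C, sub_eq_zero] at h3
    obtain ⟨σ, hσ⟩ := hne θ hθ
    apply hσ
    have h4 : θ = algebraMap k B (MvPolynomial.aeval t g / MvPolynomial.aeval t D) := by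
      rw [map_div₀, h3, mul_div_cancel_left₀ _ hDB]
    rw [h4, σ.commutes]
  obtain ⟨a, hDa, hfa⟩ := hHIT n f hfm hroot D hD
  set fa : ℚ[X] := f.map (MvPolynomial.eval a) with hfad
  have hfam : fa.Monic := hfm.map _
  set Ta : Finset (AlgebraicClosure ℚ) := (fa.aroots (AlgebraicClosure ℚ)).toFinset with hTa
  have hmemTa : ∀ θ, θ ∈ Ta ↔ aeval θ fa = 0 := by
    intro θ
    rw [hTa, Multiset.mem_toFinset, mem_aroots]
    exact ⟨fun h => h.2, fun h => ⟨hfam.ne_zero, h⟩⟩
  obtain ⟨l, b, hl, hob⟩ := obstruct (K := ℚ) Ta (by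
      intro σ θ hθ
      rw [hmemTa] at hθ ⊢
      have h1 : aeval (σ θ) fa = σ (aeval θ fa) := aeval_algHom_apply
        σ.toAlgHom θ _
      rw [h1, hθ, map_zero]) (by
      intro θ hθ
      rw [hmemTa] at hθ
      by_contra hcon
      push Not at hcon
      obtain ⟨y, hy⟩ := base_of_fixed hcon
      apply hfa y
      rw [← hy, aeval_algebraMap_apply, _root_.map_eq_zero] at hθ
      rw [← hθ]
      rfl)
  have hfb : fa.eval b ≠ 0 := hfa b
  refine ⟨l, algebraMap ℚ k b / MvPolynomial.aeval t D, hl, fun c hc => ?_⟩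
  obtain ⟨P, Q, hQ, hPQ⟩ := ht.exists_quot (c * MvPolynomial.aeval t D)
  have hP : P ≠ 0 := by
    rintro rfl
    rw [map_zero, zero_div] at hPQ
    exact mul_ne_zero hc hDk hPQ
  obtain ⟨c₀, hc₀, hcp⟩ := hAPP n f hfm a b l hl hfb P Q hP hQ
  obtain ⟨v, hv⟩ := hob c₀ hc₀
  haveI : CharZero (v.adicCompletion ℚ) :=
    charZero_of_injective_algebraMap (algebraMap ℚ (v.adicCompletion ℚ)).injective
  obtain ⟨τ, hτ, hz⟩ := hcp (Rat.HeightOneSpectrum.primesEquiv v : ℕ) (by
    intro z h0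
    -- transport to the completion
    set A := AlgebraicClosure (v.adicCompletion ℚ) with hA
    let ι₀ : AlgebraicClosure ℚ →ₐ[ℚ] A := IsAlgClosed.lift
    let ψ : ℚ_[(Rat.HeightOneSpectrum.primesEquiv v : ℕ)] →+* A :=
      (algebraMap (v.adicCompletion ℚ) A).comp (toAd v)
    have h1 : (fa.map (algebraMap ℚ A)).eval (algebraMap ℚ A b + algebraMap ℚ A c₀ * ψ z ^ l) = 0 := by
      have h2 := congrArg ψ h0
      rw [map_zero, ← eval_map_apply, Polynomial.map_map] at h2
      have e1 : ψ.comp ((algebraMap ℚ ℚ_[(Rat.HeightOneSpectrum.primesEquiv v : ℕ)]).comp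
          (MvPolynomial.eval a)) = (algebraMap ℚ A).comp (MvPolynomial.eval a) := by
        rw [← RingHom.comp_assoc, rat_unique (ψ.comp (algebraMap ℚ
          ℚ_[(Rat.HeightOneSpectrum.primesEquiv v : ℕ)])) (algebraMap ℚ A)]
      have e2 : ∀ q : ℚ, ψ (algebraMap ℚ ℚ_[(Rat.HeightOneSpectrum.primesEquiv v : ℕ)] q) =
          algebraMap ℚ A q := fun q => RingHom.congr_fun (rat_unique (ψ.comp (algebraMap ℚ _))
            (algebraMap ℚ A)) q
      rw [e1, map_add, map_mul, map_pow, e2, e2] at h2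
      rw [hfad, Polynomial.map_map]
      exact h2
    -- the root comes from `Ta`
    have h3 : (fa.map (algebraMap ℚ A)) = ((fa.map (algebraMap ℚ (AlgebraicClosure ℚ))).map
        (ι₀ : AlgebraicClosure ℚ →+* A)) := by
      have h30 := Polynomial.map_map (algebraMap ℚ (AlgebraicClosure ℚ))
        (ι₀ : AlgebraicClosure ℚ →+* A) fa
      rw [h30, rat_unique ((ι₀ : AlgebraicClosure ℚ →+* A).comp
        (algebraMap ℚ (AlgebraicClosure ℚ))) (algebraMap ℚ A)]
    have h4 : (fa.map (algebraMap ℚ (AlgebraicClosure ℚ))) =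
        ((fa.aroots (AlgebraicClosure ℚ)).map (fun θ => X - C θ)).prod := by
      have h5 := (IsAlgClosed.splits (fa.map (algebraMap ℚ (AlgebraicClosure ℚ)))).eq_prod_roots
      rw [(hfam.map _).leadingCoeff, C_1, one_mul] at h5
      exact h5
    rw [h3, h4, Polynomial.map_multiset_prod, Multiset.map_map, eval_multiset_prod,
      Multiset.prod_eq_zero_iff, Multiset.map_map, Multiset.mem_map] at h1
    obtain ⟨θ, hθ, h5⟩ := h1
    simp only [Function.comp_apply, Polynomial.map_sub, map_X, map_C, eval_sub, eval_X,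
      eval_C] at h5
    refine hv ι₀ θ (by rw [hTa, Multiset.mem_toFinset]; exact hθ) (toAd v z) ?_
    rw [map_sub, ι₀.commutes, map_mul, map_pow]
    have h6 : algebraMap (v.adicCompletion ℚ) A (algebraMap ℚ (v.adicCompletion ℚ) c₀) =
        algebraMap ℚ A c₀ := (IsScalarTower.algebraMap_apply ℚ (v.adicCompletion ℚ) A c₀).symm
    rw [h6]
    have h7 : (ι₀ : AlgebraicClosure ℚ →+* A) θ = ι₀ θ := rfl
    rw [h7, sub_eq_zero] at h5
    have h8 : algebraMap (v.adicCompletion ℚ) A (toAd v z) = ψ z := rfl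
    rw [h8, ← h5]
    ring)
  obtain ⟨φ, hφ⟩ := ht.exists_hom hτ
  refine ⟨_, factP v, φ, fun C' _ κ ι hcompat θ hθ z h1 => hz z ?_⟩
  -- the root
  have hDτ : φ (MvPolynomial.aeval t D) ≠ 0 := (_root_.map_ne_zero φ).2 hDk
  have hκD : κ (φ (MvPolynomial.aeval t D)) ≠ 0 := (_root_.map_ne_zero κ).2 hDτ
  have h2 : ι (algebraMap k B (MvPolynomial.aeval t D) * θ) =
      κ (algebraMap ℚ _ b + MvPolynomial.aeval τ P / MvPolynomial.aeval τ Q * z ^ l) := by
    have e1 : ι θ = κ (φ (algebraMap ℚ k b / MvPolynomial.aeval t D)) + κ (φ c * z ^ l) := by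
      rw [← h1, map_sub, hcompat]
      ring
    have e2 : φ (algebraMap ℚ k b) = algebraMap ℚ _ b :=
      RingHom.congr_fun (rat_unique (φ.comp (algebraMap ℚ k)) (algebraMap ℚ _)) b
    have e3 : φ c * φ (MvPolynomial.aeval t D) =
        MvPolynomial.aeval τ P / MvPolynomial.aeval τ Q := by
      rw [← map_mul, hPQ, map_div₀, hφ, hφ]
    rw [map_mul, hcompat, e1, ← e3, ← map_add, ← map_mul, map_div₀, e2]
    congr 1
    field_simp
  have h3 : (f.map ((algebraMap k B).comp
      (MvPolynomial.aeval t : MvPolynomial (Fin n) ℚ →ₐ[ℚ] k).toRingHom)).eval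
      (algebraMap k B (MvPolynomial.aeval t D) * θ) = 0 := by
    rw [hf, eval_prod]
    refine Finset.prod_eq_zero hθ ?_
    rw [eval_sub, eval_X, eval_C, sub_self]
  have h4 := congrArg ι h3
  rw [map_zero, ← eval_map_apply, Polynomial.map_map, h2] at h4
  have e4 : ι.comp ((algebraMap k B).comp
      (MvPolynomial.aeval t : MvPolynomial (Fin n) ℚ →ₐ[ℚ] k).toRingHom) =
      κ.comp (MvPolynomial.aeval τ : MvPolynomial (Fin n) ℚ →ₐ[ℚ] _).toRingHom := by
    refine RingHom.ext fun R => ?_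
    change ι (algebraMap k B (MvPolynomial.aeval t R)) = κ (MvPolynomial.aeval τ R)
    rw [hcompat, hφ]
  rw [e4, ← Polynomial.map_map, eval_map_apply, _root_.map_eq_zero] at h4
  exact h4

end Pool.Agent.Zk12.FG
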